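import Pool.Agent.Lib.PK1.Main

open AlgebraicGeometry CategoryTheory Order Pool.Agent.Lib.PK1.Fin

namespace Pool.Agent.Results.MP_81b968_ag.SurfaceGersten

/-- On a regular projective surface over a finite field the middle homology of the
Gersten complex of weight two is torsion. -/
theorem result (F : Type) [Field F] [Finite F] (n : ℕ) (X : Scheme.{0}) [IsIntegral X]
    [IsLocallyNoetherian X] (ι : X ⟶ PP F n) [IsClosedImmersion ι]
    (hreg : ∀ x : X, IsRegularLocalRing (X.presheaf.stalk x))
    (hdim : topologicalKrullDim X = 2)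
    (f : (c : X) → (X.residueField c)ˣ) (hfin : {c | f c ≠ 1}.Finite)
    (hdiv : ∀ x : X, coheight x = 2 →
      ∑ᶠ (c : X) (_ : coheight c = 1), divAt c x (f c) = 0) :
    ∃ N : ℕ, 0 < N ∧ ∃ s : List ((X.functionField)ˣ × (X.functionField)ˣ),
      ∀ c : X, coheight c = 1 →
        (s.map fun p => tame c p.1 p.2).prod = (f c : X.residueField c) ^ N :=
  Pool.Agent.Lib.PK1.all_T1 Pool.Agent.Lib.PK1.all_H3 F n X ι hreg hdim f hfin hdiv

end Pool.Agent.Results.MP_81b968_ag.SurfaceGersten
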