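import Pool.Agent.Lib.Q22.All

open AlgebraicGeometry CategoryTheory Order Pool.Agent.Lib.Q22

namespace Pool.Agent.Results.MP_81b968_ag.SurfaceTateH2

/-- On a smooth surface over a finite field every Galois invariant class in the second `ℓ`-adic
cohomology of weight two is, up to a power of `ℓ`, a combination of symbols. -/
theorem result (F : Type) [Field F] [Finite F] (d : ℕ) (X : Scheme.{0}) [IsIntegral X]
    [IsLocallyNoetherian X] (ι : X ⟶ Pool.Agent.Lib.PK1.Fin.PP F d) [IsClosedImmersion ι]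
    (hreg : ∀ x : X, IsRegularLocalRing (X.presheaf.stalk x)) (hdim : topologicalKrullDim X = 2)
    (ℓ : ℕ) [Fact ℓ.Prime] (hℓ : (ℓ : F) ≠ 0) (T : Set X) (hT : T.Finite)
    (ζ : ℕ → AlgebraicClosure X.functionField) (hζ : ∀ m, IsPrimitiveRoot (ζ m) (ℓ ^ m))
    (hζ' : ∀ m, ζ (m + 1) ^ ℓ = ζ m)
    (α : ∀ m, C2 (AlgebraicClosure X.functionField) (ℓ ^ m))
    (hcoc : ∀ m, Coc (G1 X.functionField) (α m))
    (hlev : ∀ m, Cob (G1 X.functionField) fun x y => ZMod.cast (α (m + 1) x y) - α m x y)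
    (hinv : ∀ σ ∈ G0 X.functionField, ∀ m j, σ (ζ m) = ζ m ^ j →
      Cob (G1 X.functionField) (tw j σ (α m) - α m))
    (hunr : ∀ c : X, coheight c = 1 → c ∉ T →
      ∀ w : ValuationSubring (AlgebraicClosure X.functionField),
        w.toSubring.comap (algebraMap _ _) = loc c → ∀ m, Unr2 (G1 X.functionField) w (α m)) :
    ∃ (e r : ℕ) (s : Fin r → List (X.functionFieldˣ × X.functionFieldˣ)) (a : Fin r → ℤ_[ℓ]),
      (∀ j, ∀ c : X, coheight c = 1 → c ∉ T →
        ((s j).map fun q => Pool.Agent.Lib.PK1.Fin.tame c q.1 q.2).prod = 1) ∧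
      ∀ m, Cob (G1 X.functionField)
        (ℓ ^ e • α m - ∑ j, PadicInt.toZModPow m (a j) • cup (ζ m) (ℓ ^ m) (s j)) :=
  all_StQ F d X ι hreg hdim ℓ hℓ T hT ζ hζ hζ' α hcoc hlev hinv hunr

end Pool.Agent.Results.MP_81b968_ag.SurfaceTateH2
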