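import Pool.Agent.Lib.E1.GLUE2

open AlgebraicGeometry CategoryTheory Order IsLocalRing Pool.Agent.Lib.E1.Fin

namespace Pool.Agent.Results.MP_81b968_ag.TopSymbols

/-- On a smooth projective variety over a finite field every top cycle of the dual complex of a
divisor with simple normal crossings is, up to a multiple, the top residue of a sum of Milnor
symbols, for every valuation centred at a closed point. -/
theorem result (F : Type) [Field F] [Finite F] (n d : ℕ) (X : Scheme.{0}) [IsIntegral X]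
    (ι : X ⟶ Pool.Agent.Lib.PK1.Fin.PP F n) [IsClosedImmersion ι]
    (hdim : topologicalKrullDim X = (d + 1 : ℕ)) (J : Type) [Fintype J] (η : J → X)
    (hsnc : ∀ x : X, IsClosed {x} → ∃ (s : Fin (d + 1) → X.presheaf.stalk x)
      (κ : {i // η i ⤳ x} ↪ Fin (d + 1)), Ideal.span (Set.range s) = maximalIdeal _ ∧
        ∀ i : {i // η i ⤳ x}, idl (η i) x = Ideal.span {s (κ i)})
    (ξ : (Fin (d + 1) → J) → X → ℤ)
    (halt : ∀ E (σ : Equiv.Perm (Fin (d + 1))) x, ξ (E ∘ σ) x = Equiv.Perm.sign σ * ξ E x)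
    (hcyc : ∀ (E : Fin d → J) (c : X), coheight c = d → (∀ j, η (E j) ⤳ c) →
      ∑ i, ∑ᶠ (x : X) (_ : IsClosed {x} ∧ c ⤳ x ∧ η i ⤳ x), deg F x * ξ (Fin.cons i E) x = 0) :
    ∃ N : ℕ, 0 < N ∧ ∃ s : List (Fin (d + 1) → X.functionFieldˣ),
      ∀ x : X, IsClosed {x} → ∀ t : J → X.functionFieldˣ,
        (∀ i, ∃ a, idl (η i) x = Ideal.span {a} ∧ algebraMap _ X.functionField a = t i) →
        ∀ V : ValuationSubring X.functionField,
          (∀ a : X.presheaf.stalk x, algebraMap _ X.functionField a ∈ V) →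
          (∀ a ∈ maximalIdeal (X.presheaf.stalk x), V.valuation (algebraMap _ _ a) < 1) →
          (s.map (wedge V)).sum = N • ∑ E, ξ E x • wedge V (t ∘ E) :=
  Pool.Agent.Lib.E1.all_E2 F n d X ι hdim J η hsnc ξ halt hcyc

end Pool.Agent.Results.MP_81b968_ag.TopSymbols
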