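import Pool.Agent.Lib.E1.GLUE3

open AlgebraicGeometry CategoryTheory Order IsLocalRing Pool.Agent.Lib.E1.Fin
open Pool.Agent.Lib.PK1.Fin (PP Bar loc)

namespace Pool.Agent.Results.MP_81b968_ag.TopTate

/-- On a smooth projective variety of dimension `e` over a finite field every Galois invariant
`ℓ`-adic class of degree and weight `e` with logarithmic poles along a divisor with simple normal
crossings comes from Milnor symbols of the function field, up to a power of `ℓ` and a class
without top residues. -/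
theorem result (F : Type) [Field F] [Finite F] (n d : ℕ) (X : Scheme.{0}) [IsIntegral X]
    (ι : X ⟶ PP F n) [IsClosedImmersion ι]
    (hdim : topologicalKrullDim X = (d + 1 : ℕ)) (J : Type) [Fintype J] (η : J → X)
    (hsnc : ∀ x : X, IsClosed {x} → ∃ (s : Fin (d + 1) → X.presheaf.stalk x)
      (κ : {i // η i ⤳ x} ↪ Fin (d + 1)), Ideal.span (Set.range s) = maximalIdeal _ ∧
        ∀ i : {i // η i ⤳ x}, idl (η i) x = Ideal.span {s (κ i)})
    (ℓ : ℕ) [Fact ℓ.Prime] (ξ : ℕ → KM (d + 1) (Bar X.functionField))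
    (hinv : Inv X.functionField ℓ ξ)
    (hlog : ∀ x : X, IsClosed {x} → Log (loc x) (eqs η x) ℓ ξ) :
    ∃ (m r : ℕ) (β : Fin r → KM (d + 1) X.functionField) (a : Fin r → ℤ_[ℓ]),
      Nil ℓ (rem m ξ a β) :=
  Pool.Agent.Lib.E1.all_E3 F n d X ι hdim J η hsnc ℓ ξ hinv hlog

end Pool.Agent.Results.MP_81b968_ag.TopTate
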